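import Mathlib
import Pool.Agent.helper59.Dism

/-!
# MP_ecf9a6_co: a good cover code with two codewords not joined by a feasible path

We construct an explicit code `C` on nine neurons with 24 codewords which is the code of a good
cover by open sets and also the code of a good cover by closed sets, and two codewords of `C` such
that no walk between them in the codeword containment graph is feasible.
-/

namespace Pool.Agent.Results.MP_ecf9a6_co.NoFeasiblePath

open Pool.Agent.helper59.Dism

/-! ## Definitions -/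

/-- The atom `A^U_σ = (⋂ i ∈ σ, U i) \ ⋃ j ∉ σ, U j` (the empty intersection is the whole
space `ℝ^d`). -/
def atom {n d : ℕ} (U : Fin n → Set (Fin d → ℝ)) (σ : Finset (Fin n)) : Set (Fin d → ℝ) :=
  (⋂ i ∈ σ, U i) \ (⋃ j, ⋃ _ : j ∉ σ, U j)

/-- The code of a collection of subsets of `ℝ^d`. -/
def codeOf {n d : ℕ} (U : Fin n → Set (Fin d → ℝ)) : Set (Finset (Fin n)) :=
  {σ | (atom U σ).Nonempty}

/-- Every intersection of a nonempty subfamily is empty or contractible. -/
def ContractibleIntersections {n d : ℕ} (U : Fin n → Set (Fin d → ℝ)) : Prop :=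
  ∀ σ : Finset (Fin n), σ.Nonempty →
    (⋂ i ∈ σ, U i) = ∅ ∨ ContractibleSpace (⋂ i ∈ σ, U i : Set (Fin d → ℝ))

/-- `C` is the code of a good cover all of whose sets are open. -/
def IsOpenGoodCoverCode {n : ℕ} (C : Set (Finset (Fin n))) : Prop :=
  ∃ (d : ℕ) (U : Fin n → Set (Fin d → ℝ)),
    (∀ i, IsOpen (U i)) ∧ ContractibleIntersections U ∧ codeOf U = C

/-- `C` is the code of a good cover all of whose sets are closed. -/
def IsClosedGoodCoverCode {n : ℕ} (C : Set (Finset (Fin n))) : Prop :=
  ∃ (d : ℕ) (U : Fin n → Set (Fin d → ℝ)),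
    (∀ i, IsClosed (U i)) ∧ ContractibleIntersections U ∧ codeOf U = C

/-- The codeword containment graph `G_C`: its vertices are the codewords, and two codewords are
adjacent iff one of them is strictly contained in the other. -/
def containmentGraph {n : ℕ} (C : Set (Finset (Fin n))) : SimpleGraph C where
  Adj σ τ := (σ : Finset (Fin n)) ⊂ (τ : Finset (Fin n)) ∨
    (τ : Finset (Fin n)) ⊂ (σ : Finset (Fin n))
  symm := ⟨fun _ _ h => h.symm⟩
  loopless := ⟨fun _ h => h.elim (fun h => h.ne rfl) (fun h => h.ne rfl)⟩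

/-- A walk `v_0, v_1, …, v_k` in `G_C` is feasible if `v_i ∩ v_j ⊆ v_m` for all
`i < m < j ≤ k`. -/
def IsFeasible {n : ℕ} {C : Set (Finset (Fin n))} {σ τ : C}
    (p : (containmentGraph C).Walk σ τ) : Prop :=
  ∀ i m j : ℕ, i < m → m < j → j ≤ p.length →
    (p.getVert i : Finset (Fin n)) ∩ (p.getVert j : Finset (Fin n)) ⊆
      (p.getVert m : Finset (Fin n))

/-! ## Good cover realizations from dismantlability -/

/-- Comparability of the members of a family of finite sets. -/
def comp {n K : ℕ} (cw : Fin K → Finset (Fin n)) (k l : Fin K) : Prop :=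
  cw k ⊆ cw l ∨ cw l ⊆ cw k

theorem comp_refl {n K : ℕ} (cw : Fin K → Finset (Fin n)) (k : Fin K) : comp cw k k :=
  Or.inl (Finset.Subset.refl _)

theorem comp_symm {n K : ℕ} (cw : Fin K → Finset (Fin n)) (k l : Fin K) (h : comp cw k l) :
    comp cw l k := h.symm

theorem isClosed_X {K : ℕ} (co : Fin K → Fin K → Prop) (Q : Set (Fin K)) :
    IsClosed (X co Q) := by
  have h1 : IsClosed {x : Fin K → ℝ | ∀ k, 0 ≤ x k} := by
    simp only [Set.ofPred_forall]
    exact isClosed_iInter fun k => isClosed_le continuous_const (continuous_apply k)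
  have h2 : IsClosed {x : Fin K → ℝ | ∑ k, x k = 1} :=
    isClosed_eq (continuous_finsetSum _ fun k _ => continuous_apply k) continuous_const
  have h3 : IsClosed {x : Fin K → ℝ | ∀ k l, ¬ co k l → x k = 0 ∨ x l = 0} := by
    simp only [Set.ofPred_forall]
    refine isClosed_iInter fun k => isClosed_iInter fun l => isClosed_iInter fun _ => ?_
    exact (isClosed_eq (continuous_apply k) continuous_const).union
      (isClosed_eq (continuous_apply l) continuous_const)
  have h4 : IsClosed {x : Fin K → ℝ | ∀ k, k ∉ Q → x k = 0} := by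
    simp only [Set.ofPred_forall]
    exact isClosed_iInter fun k => isClosed_iInter fun _ =>
      isClosed_eq (continuous_apply k) continuous_const
  exact h1.inter (h2.inter (h3.inter h4))

theorem isOpen_V {K : ℕ} (co : Fin K → Fin K → Prop) (Q : Set (Fin K)) :
    IsOpen (V co Q) := by
  have h1 : IsOpen {x : Fin K → ℝ | ∀ k l, ¬ co k l → x k < 0 ∨ x l < 0} := by
    simp only [Set.ofPred_forall]
    refine isOpen_iInter_of_finite fun k => isOpen_iInter_of_finite fun l =>
      isOpen_iInter_of_finite fun _ => ?_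
    exact (isOpen_lt (continuous_apply k) continuous_const).union
      (isOpen_lt (continuous_apply l) continuous_const)
  have h2 : IsOpen {x : Fin K → ℝ | ∃ k ∈ Q, 0 < x k} := by
    have : {x : Fin K → ℝ | ∃ k ∈ Q, 0 < x k} = ⋃ k ∈ Q, {x : Fin K → ℝ | 0 < x k} := by
      ext x; simp
    rw [this]
    exact isOpen_biUnion fun k _ => isOpen_lt continuous_const (continuous_apply k)
  exact h1.inter h2

theorem mem_atom {n d : ℕ} (U : Fin n → Set (Fin d → ℝ)) (σ : Finset (Fin n))
    (x : Fin d → ℝ) : x ∈ atom U σ ↔ ∀ i, i ∈ σ ↔ x ∈ U i := by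
  simp only [atom, Set.mem_sdiff, Set.mem_iInter, Set.mem_iUnion, not_exists]
  constructor
  · rintro ⟨h1, h2⟩ i
    exact ⟨fun h => h1 i h, fun h => by_contra fun hc => h2 i hc h⟩
  · intro h
    exact ⟨fun i hi => (h i).1 hi, fun i hi hx => hi ((h i).2 hx)⟩

theorem iInter_X {n K : ℕ} (cw : Fin K → Finset (Fin n)) (ρ : Finset (Fin n))
    (hρ : ρ.Nonempty) :
    (⋂ i ∈ ρ, X (comp cw) {k | i ∈ cw k}) = X (comp cw) {k | ρ ⊆ cw k} := by
  ext x
  simp only [Set.mem_iInter]
  constructor
  · intro h
    obtain ⟨i0, hi0⟩ := hρ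
    obtain ⟨h1, h2, h3, -⟩ := h i0 hi0
    refine ⟨h1, h2, h3, fun k hk => ?_⟩
    simp only [Set.mem_ofPred_eq, Finset.not_subset] at hk
    obtain ⟨i, hi, hik⟩ := hk
    exact (h i hi).2.2.2 k hik
  · rintro ⟨h1, h2, h3, h4⟩ i hi
    exact ⟨h1, h2, h3, fun k hk => h4 k fun h => hk (h hi)⟩

/-- In the open thickening the positive support has a largest member. -/
theorem exists_top {n K : ℕ} (cw : Fin K → Finset (Fin n)) {x : Fin K → ℝ}
    (h : ∀ k l, ¬ comp cw k l → x k < 0 ∨ x l < 0) (hne : ∃ k, 0 < x k) :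
    ∃ k0, 0 < x k0 ∧ ∀ k, 0 < x k → cw k ⊆ cw k0 := by
  classical
  obtain ⟨k1, hk1⟩ := hne
  obtain ⟨k0, hk0, hmax⟩ := Finset.exists_max_image (Finset.univ.filter fun k => 0 < x k)
    (fun k => (cw k).card) ⟨k1, by simp [hk1]⟩
  simp only [Finset.mem_filter, Finset.mem_univ, true_and] at hk0 hmax
  refine ⟨k0, hk0, fun k hk => ?_⟩
  have hc : comp cw k k0 := by
    by_contra hcon
    rcases h k k0 hcon with h | h <;> linarith
  rcases hc with hc | hc
  · exact hc
  · exact (Finset.eq_of_subset_of_card_le hc (hmax k hk)).symm.subset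

/-- In the clique complex the support has a smallest member. -/
theorem exists_bot {n K : ℕ} (cw : Fin K → Finset (Fin n)) {x : Fin K → ℝ}
    (h : ∀ k l, ¬ comp cw k l → x k = 0 ∨ x l = 0) (hne : ∃ k, x k ≠ 0) :
    ∃ k0, x k0 ≠ 0 ∧ ∀ k, x k ≠ 0 → cw k0 ⊆ cw k := by
  classical
  obtain ⟨k1, hk1⟩ := hne
  obtain ⟨k0, hk0, hmin⟩ := Finset.exists_min_image (Finset.univ.filter fun k => x k ≠ 0)
    (fun k => (cw k).card) ⟨k1, by simp [hk1]⟩
  simp only [Finset.mem_filter, Finset.mem_univ, true_and] at hk0 hmin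
  refine ⟨k0, hk0, fun k hk => ?_⟩
  have hc : comp cw k0 k := by
    by_contra hcon
    rcases h k0 k hcon with h | h
    · exact hk0 h
    · exact hk h
  rcases hc with hc | hc
  · exact hc
  · exact (Finset.eq_of_subset_of_card_le hc (hmin k hk)).symm.subset

theorem iInter_V {n K : ℕ} (cw : Fin K → Finset (Fin n)) (ρ : Finset (Fin n))
    (hρ : ρ.Nonempty) :
    (⋂ i ∈ ρ, V (comp cw) {k | i ∈ cw k}) = V (comp cw) {k | ρ ⊆ cw k} := by
  ext x
  simp only [Set.mem_iInter]
  constructor
  · intro h
    obtain ⟨i0, hi0⟩ := hρ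
    obtain ⟨h1, k1, -, hk1⟩ := h i0 hi0
    obtain ⟨k0, hk0, htop⟩ := exists_top cw h1 ⟨k1, hk1⟩
    refine ⟨h1, k0, fun i hi => ?_, hk0⟩
    obtain ⟨-, k, hik, hk⟩ := h i hi
    exact htop k hk hik
  · rintro ⟨h1, k, hk, hxk⟩ i hi
    exact ⟨h1, k, hk hi, hxk⟩

/-- If for every nonempty `ρ` the subfamily of the members containing `ρ` is empty or
dismantlable, then the family together with `∅` is a closed good cover code. -/
theorem closed_of_dismantlable {n K : ℕ} (cw : Fin K → Finset (Fin n))
    (h : ∀ ρ : Finset (Fin n), ρ.Nonempty →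
      {k | ρ ⊆ cw k} = ∅ ∨ Dismantlable (comp cw) {k | ρ ⊆ cw k}) :
    IsClosedGoodCoverCode ({∅} ∪ Set.range cw) := by
  classical
  refine ⟨K, fun i => X (comp cw) {k | i ∈ cw k}, fun i => isClosed_X _ _, ?_, ?_⟩
  · intro ρ hρ
    rw [iInter_X cw ρ hρ]
    rcases h ρ hρ with h | h
    · left
      rw [h]
      ext x
      simp only [Set.mem_empty_iff_false, iff_false]
      intro hx
      obtain ⟨k, hk, -⟩ := exists_gt hx
      exact hk
    · right
      exact h.contractible (comp_refl cw) (comp_symm cw)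
  · ext σ
    simp only [codeOf, Set.mem_ofPred_eq, Set.mem_union, Set.mem_singleton_iff, Set.mem_range]
    constructor
    · rintro ⟨x, hx⟩
      rw [mem_atom] at hx
      rcases σ.eq_empty_or_nonempty with h0 | ⟨i0, hi0⟩
      · exact Or.inl h0
      · right
        have hx0 := (hx i0).1 hi0
        obtain ⟨k1, -, hk1⟩ := exists_gt hx0
        obtain ⟨h1, h2, h3, -⟩ := hx0
        have hpos : (0 : ℝ) < 1 / ((K : ℝ) + 1) := by positivity
        obtain ⟨k0, hk0, hbot⟩ := exists_bot cw h3 ⟨k1, by linarith⟩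
        refine ⟨k0, ?_⟩
        ext i
        rw [hx i]
        constructor
        · intro hi
          exact ⟨h1, h2, h3, fun k hk => by_contra fun hc => hk (hbot k hc hi)⟩
        · rintro ⟨-, -, -, h4⟩
          by_contra hc
          exact hk0 (h4 k0 hc)
    · rintro (rfl | ⟨k0, rfl⟩)
      · refine ⟨0, ?_⟩
        rw [mem_atom]
        intro i
        simp [X]
      · refine ⟨Pi.single k0 1, ?_⟩
        rw [mem_atom]
        intro i
        constructor
        · intro hi
          refine ⟨fun k => ?_, by simp, fun k l hkl => ?_, fun k hk => ?_⟩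
          · by_cases hk : k = k0
            · subst hk; simp
            · simp [hk]
          · by_cases hk : k = k0
            · right
              have hl : l ≠ k0 := by
                rintro rfl
                subst hk
                exact hkl (comp_refl cw _)
              simp [hl]
            · left
              simp [hk]
          · have hk : k ≠ k0 := by
              rintro rfl
              exact hk hi
            simp [hk]
        · rintro ⟨-, -, -, h4⟩
          by_contra hc
          have := h4 k0 hc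
          simp at this

/-- If for every nonempty `ρ` the subfamily of the members containing `ρ` is empty or
dismantlable, then the family together with `∅` is an open good cover code. -/
theorem open_of_dismantlable {n K : ℕ} (cw : Fin K → Finset (Fin n))
    (h : ∀ ρ : Finset (Fin n), ρ.Nonempty →
      {k | ρ ⊆ cw k} = ∅ ∨ Dismantlable (comp cw) {k | ρ ⊆ cw k}) :
    IsOpenGoodCoverCode ({∅} ∪ Set.range cw) := by
  classical
  refine ⟨K, fun i => V (comp cw) {k | i ∈ cw k}, fun i => isOpen_V _ _, ?_, ?_⟩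
  · intro ρ hρ
    rw [iInter_V cw ρ hρ]
    rcases h ρ hρ with h | h
    · left
      rw [h]
      ext x
      simp only [Set.mem_empty_iff_false, iff_false]
      rintro ⟨-, k, hk, -⟩
      exact hk
    · right
      exact open_contractible (h.contractible (comp_refl cw) (comp_symm cw))
  · ext σ
    simp only [codeOf, Set.mem_ofPred_eq, Set.mem_union, Set.mem_singleton_iff, Set.mem_range]
    constructor
    · rintro ⟨x, hx⟩
      rw [mem_atom] at hx
      rcases σ.eq_empty_or_nonempty with h0 | ⟨i0, hi0⟩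
      · exact Or.inl h0
      · right
        obtain ⟨h1, k1, -, hk1⟩ := (hx i0).1 hi0
        obtain ⟨k0, hk0, htop⟩ := exists_top cw h1 ⟨k1, hk1⟩
        refine ⟨k0, ?_⟩
        ext i
        rw [hx i]
        constructor
        · intro hi
          exact ⟨h1, k0, hi, hk0⟩
        · rintro ⟨-, k, hik, hk⟩
          exact htop k hk hik
    · rintro (rfl | ⟨k0, rfl⟩)
      · refine ⟨fun _ => -1, ?_⟩
        rw [mem_atom]
        intro i
        simp only [Finset.notMem_empty, false_iff]
        rintro ⟨-, k, -, hk⟩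
        norm_num at hk
      · refine ⟨fun k => if k = k0 then 1 else -1, ?_⟩
        rw [mem_atom]
        intro i
        constructor
        · intro hi
          refine ⟨fun k l hkl => ?_, k0, hi, by simp⟩
          by_cases hk : k = k0
          · right
            have hl : l ≠ k0 := by
              rintro rfl
              subst hk
              exact hkl (comp_refl cw _)
            simp [hl]
          · left
            simp [hk]
        · rintro ⟨-, k, hik, hk⟩
          by_cases hkk : k = k0
          · subst hkk; exact hik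
          · simp only [hkk, if_false] at hk
            norm_num at hk

/-! ## The example -/

/-- The 23 nonempty codewords. -/
def words : List (Finset (Fin 9)) := [
    {0, 3}, {0, 5}, {0, 6}, {0, 1, 2}, {0, 1, 5},
    {0, 1, 6}, {0, 2, 3}, {0, 2, 6}, {0, 3, 7}, {0, 3, 8},
    {0, 4, 8}, {0, 5, 6}, {0, 5, 8}, {0, 1, 2, 6}, {0, 2, 3, 5},
    {0, 2, 3, 7}, {0, 3, 4, 5}, {0, 3, 4, 7}, {0, 1, 5, 6, 8}, {0, 2, 3, 5, 8},
    {0, 3, 4, 7, 8}, {0, 1, 3, 4, 5, 7}, {0, 2, 3, 4, 5, 6}]

/-- The nonempty codewords as an indexed family. -/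
def cw (k : Fin 23) : Finset (Fin 9) := words.getD k ∅

/-- The code: the empty set and the 23 nonempty codewords. -/
def code : Set (Finset (Fin 9)) := {∅} ∪ Set.range cw

/-- Comparability of codewords, as bit masks. -/
def nb (k : ℕ) : ℕ := List.getD [8110913, 7165970, 4466852, 8200, 2359314, 270372, 4767809, 4202628, 3309825, 1573377, 1049600, 4458502, 790530, 8364, 4735043, 33089, 6356995, 3277057, 268342, 545347, 1181441, 2294035, 4278471] k 0

/-- The codewords containing a given neuron, as bit masks. -/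
def Qm (i : ℕ) : ℕ := List.getD [8388607, 2367544, 4776136, 8110913, 7537664, 7165970, 4466852, 3309824, 1840640] i 0

theorem nb_spec : ∀ k l : Fin 23, (cw k ⊆ cw l ∨ cw l ⊆ cw k) ↔ (nb k).testBit l = true := by
  decide +kernel

theorem Qm_spec : ∀ (i : Fin 9) (k : Fin 23), (Qm i).testBit k = true ↔ i ∈ cw k := by
  decide +kernel

/-- Checks a dismantling sequence. -/
def check (last : ℕ) : List (ℕ × ℕ) → ℕ → Bool
  | [], q => q == 2 ^ last
  | (a, b) :: rest, q => decide (a < 23) && decide (b < 23) && q.testBit a && q.testBit b &&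
      !(a == b) && (((nb a &&& q) &&& nb b) == (nb a &&& q)) && check last rest (q ^^^ (2 ^ a))

theorem check_sound (last : ℕ) (hl : last < 23) : ∀ (steps : List (ℕ × ℕ)) (q : ℕ),
    check last steps q = true → Dismantlable (comp cw) {k : Fin 23 | q.testBit k = true}
  | [], q, h => by
    have h1 : q = 2 ^ last := by simpa [check] using h
    have h2 : {k : Fin 23 | q.testBit k = true} = {⟨last, hl⟩} := by
      ext k
      simp only [h1, Nat.testBit_two_pow, decide_eq_true_eq, Set.mem_ofPred_eq,
        Set.mem_singleton_iff, Fin.ext_iff]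
      exact ⟨fun h => h.symm, fun h => h.symm⟩
    rw [h2]
    exact Dismantlable.single _
  | (a, b) :: rest, q, h => by
    simp only [check, Bool.and_eq_true, decide_eq_true_eq, beq_iff_eq, Bool.not_eq_true',
      beq_eq_false_iff_ne] at h
    obtain ⟨⟨⟨⟨⟨⟨ha, hb⟩, hqa⟩, hqb⟩, hab⟩, hdom⟩, hrest⟩ := h
    have ih := check_sound last hl rest _ hrest
    refine Dismantlable.step ⟨a, ha⟩ ⟨b, hb⟩ _ hqb (by simpa [Fin.ext_iff] using hab) ?_ ?_
    · intro c hc hac
      have h1 : (nb a).testBit c = true := (nb_spec ⟨a, ha⟩ c).1 hac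
      have h2 : (nb a &&& q).testBit c = true := by
        rw [Nat.testBit_and, h1, hc]; rfl
      rw [← hdom, Nat.testBit_and] at h2
      exact (nb_spec ⟨b, hb⟩ c).2 (by simpa using (Bool.and_eq_true _ _ ▸ h2).2)
    · have h2 : {k : Fin 23 | (q ^^^ 2 ^ a).testBit k = true}
          = {k : Fin 23 | q.testBit k = true} \ {⟨a, ha⟩} := by
        ext k
        simp only [Nat.testBit_xor, Nat.testBit_two_pow, Set.mem_ofPred_eq, Set.mem_sdiff,
          Set.mem_singleton_iff, Fin.ext_iff]
        by_cases hk : a = k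
        · subst hk
          simp [hqa]
        · have hk2 : ¬ (k : ℕ) = a := fun h => hk h.symm
          simp [hk, hk2]
      rw [← h2]
      exact ih

/-- All the nonempty sets of the form `{k | ρ ⊆ cw k}`, as bit masks, with their dismantling
sequences. -/
def table : List (ℕ × ℕ × List (ℕ × ℕ)) := [
  (8192, 13, []),
  (8200, 13, [(3, 13)]),
  (32768, 15, []),
  (262144, 18, []),
  (270368, 18, [(13, 5), (5, 18)]),
  (524288, 19, []),
  (790528, 19, [(18, 12), (12, 19)]),
  (1048576, 20, []),
  (1049600, 20, [(10, 20)]),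
  (1573376, 20, [(19, 9), (9, 20)]),
  (1840640, 20, [(10, 20), (18, 12), (12, 19), (19, 9), (9, 20)]),
  (2097152, 21, []),
  (2359312, 21, [(18, 4), (4, 21)]),
  (2367544, 21, [(3, 13), (13, 5), (5, 18), (18, 4), (4, 21)]),
  (3276800, 21, [(20, 17), (17, 21)]),
  (3309824, 21, [(15, 8), (8, 17), (20, 17), (17, 21)]),
  (4194304, 22, []),
  (4202624, 22, [(13, 7), (7, 22)]),
  (4458496, 22, [(18, 11), (11, 22)]),
  (4466852, 22, [(5, 2), (7, 2), (11, 2), (13, 2), (18, 2), (2, 22)]),
  (4734976, 22, [(19, 14), (14, 22)]),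
  (4767808, 22, [(14, 6), (15, 6), (19, 6), (6, 22)]),
  (4776136, 22, [(3, 13), (13, 7), (7, 22), (14, 6), (15, 6), (19, 6), (6, 22)]),
  (6356992, 22, [(21, 16), (16, 22)]),
  (6897664, 22, [(19, 14), (14, 22), (21, 16), (16, 22)]),
  (7165970, 22, [(4, 1), (11, 1), (12, 1), (14, 1), (16, 1), (18, 1), (19, 1), (21, 1), (1, 22)]),
  (7536640, 22, [(20, 17), (17, 21), (21, 16), (16, 22)]),
  (7537664, 22, [(10, 20), (20, 17), (17, 21), (21, 16), (16, 22)]),
  (8110913, 22, [(6, 0), (8, 0), (9, 0), (14, 0), (15, 0), (16, 0), (17, 0), (19, 0), (20, 0),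
    (21, 0), (0, 22)]),
  (8388607, 22, [(3, 13), (4, 1), (5, 2), (6, 0), (7, 2), (8, 0), (9, 0), (10, 20), (12, 1),
    (13, 2), (2, 11), (11, 1), (15, 0), (17, 0), (18, 1), (19, 14), (14, 22), (1, 16),
    (16, 0), (20, 0), (21, 0), (0, 22)])]

theorem table_check : ∀ e ∈ table, e.2.1 < 23 ∧ check e.2.1 e.2.2 e.1 = true := by
  decide +kernel

theorem table_closed : ∀ e ∈ table, ∀ i : Fin 9,
    e.1 &&& Qm i = 0 ∨ ∃ e' ∈ table, e'.1 = e.1 &&& Qm i := by
  decide +kernel

theorem table_full : ∃ e ∈ table, e.1 = 8388607 := by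
  decide +kernel

theorem full_spec : ∀ k : Fin 23, (8388607 : ℕ).testBit k = true := by
  decide +kernel

theorem mask_exists (ρ : Finset (Fin 9)) : ∃ q : ℕ, (q = 0 ∨ ∃ e ∈ table, e.1 = q) ∧
    ∀ k : Fin 23, q.testBit k = true ↔ ρ ⊆ cw k := by
  classical
  induction ρ using Finset.induction_on with
  | empty => exact ⟨8388607, Or.inr table_full, fun k => by simp [full_spec k]⟩
  | insert i s _ ih =>
    obtain ⟨q, hq, hspec⟩ := ih
    refine ⟨q &&& Qm i, ?_, fun k => ?_⟩
    · rcases hq with rfl | ⟨e, he, rfl⟩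
      · left; simp
      · exact table_closed e he i
    · rw [Nat.testBit_and, Bool.and_eq_true, hspec k, Qm_spec i k, Finset.insert_subset_iff]
      exact and_comm

theorem dism (ρ : Finset (Fin 9)) :
    {k | ρ ⊆ cw k} = ∅ ∨ Dismantlable (comp cw) {k | ρ ⊆ cw k} := by
  obtain ⟨q, hq, hspec⟩ := mask_exists ρ
  have h1 : {k | ρ ⊆ cw k} = {k : Fin 23 | q.testBit k = true} := by
    ext k; exact (hspec k).symm
  rw [h1]
  rcases hq with rfl | ⟨e, he, rfl⟩
  · left
    ext k
    simp
  · right
    exact check_sound _ (table_check e he).1 _ _ (table_check e he).2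

/-! ## No feasible walk -/

/-- The starting codeword. -/
def start : Finset (Fin 9) := {0, 1, 2}

/-- The target codeword. -/
def target : Finset (Fin 9) := {0, 4, 8}

/-- The states: `(w, D)` where `w` is the current codeword and `D` is a set of neurons which have
been switched off before. -/
def states : List (Finset (Fin 9) × Finset (Fin 9)) := [
    ({0, 1, 2}, ∅),
    ({0, 1, 2, 6}, ∅),
    ({0, 1, 6}, {2}),
    ({0, 2, 6}, {1}),
    ({0, 6}, {1, 2}),
    ({0, 5, 6}, {1, 2}),
    ({0, 5}, {1, 2, 6}),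
    ({0, 5, 8}, {1, 2, 6}),
    ({0, 3, 4, 5}, {1, 2, 6}),
    ({0, 1, 5, 6, 8}, {2}),
    ({0, 2, 3, 4, 5, 6}, {1})]

/-- The states as an indexed family. -/
def state (i : Fin 11) : Finset (Fin 9) × Finset (Fin 9) := states.getD i (∅, ∅)

theorem state_start : state 0 = (start, ∅) := by decide +kernel

theorem state_target : ∀ i : Fin 11, (state i).1 ≠ target := by decide +kernel

theorem state_zero : ∀ i : Fin 11, ¬ ((state i).1 \ ∅) ∩ target = ∅ := by decide +kernel

theorem state_step : ∀ i : Fin 11, ∀ k : Fin 23, ((state i).1 ⊂ cw k ∨ cw k ⊂ (state i).1) →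
    (state i).2 ∩ cw k = ∅ → ((state i).1 \ cw k) ∩ target = ∅ →
    ∃ j : Fin 11, (state j).1 = cw k ∧ (state j).2 ⊆ (state i).2 ∪ ((state i).1 \ cw k) := by
  decide +kernel

theorem no_walk (v : ℕ → Finset (Fin 9)) (K : ℕ) (h0 : v 0 = start) (hK : v K = target)
    (hC : ∀ i ≤ K, v i ∈ code) (hadj : ∀ i < K, v i ⊂ v (i + 1) ∨ v (i + 1) ⊂ v i)
    (hf : ∀ i m j : ℕ, i < m → m < j → j ≤ K → v i ∩ v j ⊆ v m) : False := by
  have key : ∀ t ≤ K, ∃ e : Fin 11, (state e).1 = v t ∧
      ∀ x ∈ (state e).2, x ∉ v t ∧ ∃ i < t, x ∈ v i := by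
    intro t
    induction t with
    | zero =>
      intro _
      refine ⟨0, ?_, ?_⟩
      · rw [state_start, h0]
      · rw [state_start]; simp
    | succ t ih =>
      intro ht
      obtain ⟨e, hev, hdead⟩ := ih (by omega)
      have hD : (state e).2 ∩ v (t + 1) = ∅ := by
        rw [Finset.eq_empty_iff_forall_notMem]
        intro x hx
        rw [Finset.mem_inter] at hx
        obtain ⟨hxt, i, hi, hxi⟩ := hdead x hx.1
        exact hxt (hf i t (t + 1) hi (by omega) ht (Finset.mem_inter.2 ⟨hxi, hx.2⟩))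
      have hT : ((state e).1 \ v (t + 1)) ∩ target = ∅ := by
        rw [Finset.eq_empty_iff_forall_notMem]
        intro x hx
        rw [Finset.mem_inter, Finset.mem_sdiff, hev, ← hK] at hx
        obtain ⟨⟨hx1, hx2⟩, hx3⟩ := hx
        rcases Nat.lt_or_ge (t + 1) K with hlt | hge
        · exact hx2 (hf t (t + 1) K (by omega) hlt le_rfl (Finset.mem_inter.2 ⟨hx1, hx3⟩))
        · have : t + 1 = K := by omega
          rw [this] at hx2
          exact hx2 hx3
      rcases hC (t + 1) ht with h | ⟨k, hk⟩
      · rw [Set.mem_singleton_iff] at h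
        rw [h] at hT
        exact absurd hT (state_zero e)
      · rw [← hk] at hD hT
        have ha : (state e).1 ⊂ cw k ∨ cw k ⊂ (state e).1 := by
          rw [hev, hk]; exact hadj t (by omega)
        obtain ⟨e', h1, h2⟩ := state_step e k ha hD hT
        refine ⟨e', h1.trans hk, fun x hx => ?_⟩
        have h3 := h2 hx
        rw [Finset.mem_union, Finset.mem_sdiff] at h3
        rcases h3 with h3 | ⟨h3, h4⟩
        · obtain ⟨-, i, hi, hxi⟩ := hdead x h3
          refine ⟨fun hx' => ?_, i, by omega, hxi⟩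
          have : x ∈ (state e).2 ∩ cw k := Finset.mem_inter.2 ⟨h3, hk ▸ hx'⟩
          rw [hD] at this
          exact Finset.notMem_empty _ this
        · exact ⟨hk ▸ h4, t, by omega, hev ▸ h3⟩
  obtain ⟨e, hev, -⟩ := key K le_rfl
  exact state_target e (hev.trans hK)

theorem start_mem : start ∈ code := Or.inr ⟨3, by decide +kernel⟩

theorem target_mem : target ∈ code := Or.inr ⟨10, by decide +kernel⟩

/-- There is a code `C` on nine neurons which is an open good cover code and also a closed good
cover code, and which has two distinct codewords `σ`, `τ` such that no walk from `σ` to `τ` in the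
codeword containment graph of `C` is feasible. -/
theorem result : ∃ C : Set (Finset (Fin 9)), IsOpenGoodCoverCode C ∧ IsClosedGoodCoverCode C ∧
    ∃ σ τ : C, σ ≠ τ ∧ ∀ p : (containmentGraph C).Walk σ τ, ¬ IsFeasible p := by
  refine ⟨code, open_of_dismantlable cw fun ρ _ => dism ρ,
    closed_of_dismantlable cw fun ρ _ => dism ρ, ⟨start, start_mem⟩, ⟨target, target_mem⟩,
    ?_, ?_⟩
  · intro h
    exact absurd (congrArg Subtype.val h) (by decide +kernel)
  · intro p hp
    refine no_walk (fun i => (p.getVert i : Finset (Fin 9))) p.length ?_ ?_ ?_ ?_ hp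
    · simp
    · simp
    · intro i _
      exact (p.getVert i).2
    · intro i hi
      exact p.adj_getVert_succ hi

end Pool.Agent.Results.MP_ecf9a6_co.NoFeasiblePath
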